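import Pool.Agent.Y152.VC.Curves

/-!
# Voisin's conjecture on zero-cycles for products of curves and surfaces of product type
-/

open CategoryTheory AlgebraicGeometry

universe u v w

namespace Pool.Agent.Results.MP_83b46e_ag.ProductTypeSurfaces

open Pool.Agent.H914 Pool.Agent.H914.VarClass Pool.Agent.H914.VarClass.Obj Pool.Agent.W492.BB
  Pool.Agent.W550.Corr Pool.Agent.TH133 Pool.Agent.Y152.AS Pool.Agent.Y110 Pool.Agent.Y152.VC

/-- (1) Let `S` be a surface with a cover `π : T ⟶ S` of product type: the pull-backs of the cycles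
in the Albanese kernel of `S` are linear combinations of classes `∑_m u_{i,m}^* α · v_{i,m}^* β`,
`α ∈ Pic^0(A_i)_ℚ`, `β ∈ Pic^0(B_i)_ℚ`. Then `∑_σ sgn(σ) a_{σ(1)} × ... × a_{σ(n)} = 0` in
`CH_0(S^n)_ℚ` for all `n > ∑_i dim A_i dim B_i` and all `a_1, ..., a_n` in the Albanese kernel.
(2) In particular this holds for the products `X × Y` of two curves, if `n` is bigger than
`g(X) g(Y) = p_g(X × Y)`. -/
theorem result {k : Type u} [Field k] {𝒱 : VarClass k} {C : TheoryData.{u, v, 0} 𝒱 ℚ}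
    [IsChowProj C] :
    (∀ (S : 𝒱.Obj), S.dim = 2 → ∀ (D : ProductCover C S) (n : ℕ), D.genus < n →
      ∀ (P : 𝒱.Obj) (pr : Fin n → (P ⟶ S)), IsPow pr →
        ∀ a : Fin n → C.A S, (∀ j, InAlbKer C (a j)) → altProd C pr a = 0) ∧
    (∀ (X Y J J' : 𝒱.Obj) [GroupLaw J] [GroupLaw J'] (j : X ⟶ J) (j' : Y ⟶ J'),
      IsJacobian C j → IsJacobian C j' → SpannedByProducts C X Y →
        ∀ n : ℕ, J.dim * J'.dim < n → ∀ (P : 𝒱.Obj) (pr : Fin n → (P ⟶ X.prod Y)), IsPow pr →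
          ∀ a : Fin n → C.A (X.prod Y), (∀ j, InAlbKer C (a j)) → altProd C pr a = 0) :=
  ⟨fun _ _ D _ hn _ _ hP a ha => main D hn hP a ha,
    fun _ _ _ _ _ _ _ _ hX hY hs _ hn _ _ hP a ha => main_curves hX hY hs hn hP a ha⟩

end Pool.Agent.Results.MP_83b46e_ag.ProductTypeSurfaces
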