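import Pool.Agent.Y107.VC.Voi

/-!
# Voisin's conjecture for products of symmetric powers of curves

The conjecture holds for `S = C₁ × C₂` (`p_g = g₁ g₂`), for `S = C⁽²⁾` (`p_g = g (g - 1) / 2`), and,
with the sign `(-1)^(d+1)`, for the zero-cycles in the last step of the filtration of every product
`S = ∏ C_t^(d_t)` of symmetric powers of curves, of dimension `d = ∑ d_t` and with
`h^(d,0)(S) = ∏ binomial(g_t, d_t)`.

Curves over the algebraically closed field `k` of characteristic zero are given by their function
fields, points by normalised discrete valuations. A zero-cycle on `∏ C_t^(d_t)` with rational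
coefficients is a symmetric zero-cycle on `∏ C_t^{d_t}`.

The proof: by the theorem of Riemann every effective divisor of degree `g + 1` on a curve of genus
`g` is linearly equivalent to one through a given point; using a Galois closure of the function
field this becomes a rational equivalence of symmetric zero-cycles on `C^(g+1)`, so that symmetric
primitive zero-cycles on `C^(g+1)` vanish; the rest is the second fundamental theorem of invariant
theory for the symmetric groups.
-/

set_option autoImplicit false

namespace Pool.Agent.Results.MP_83b46e_ag.ProductsOfSymmetricPowers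

open Pool.Agent.Y107.VC FF

/-- Let `C_t` be finitely many curves of genus `g_t`, `S = ∏ C_t^(d_t)` and `d = ∑ d_t`. If
`n > ∏ binomial(g_t, d_t)`, the sum `∑ sgn(σ)^(d+1) a_σ(1) × ... × a_σ(n)` is rationally equivalent
to zero on `Sⁿ` for all zero-cycles `a_1, ..., a_n` on `S` whose push forwards to the products with
one factor less vanish. -/
theorem result (k : Type) [Field k] [CharZero k] [IsAlgClosed k] (T : Type) [Fintype T]
    [DecidableEq T] (K : T → Type) [∀ t, Field (K t)] [∀ t, Algebra k (K t)]
    [∀ t, IsFF k (K t)] (d : T → ℕ) (n : ℕ) (hn : ∏ t, (genus k (K t)).choose (d t) < n)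
    (a : Fin n → Pts k K d →₀ ℚ) (hsym : ∀ j, Symm (a j)) (hprim : ∀ j, Primitive (a j)) :
    altExt (∑ t, d t + 1) a ∈ Rat k fun p : Fin n × Σ t, Fin (d t) => K p.2.1 :=
  voisin' d n hn a hsym hprim

end Pool.Agent.Results.MP_83b46e_ag.ProductsOfSymmetricPowers
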