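import Pool.Agent.Y152.VR.Main

/-!
# Voisin's conjecture on zero-cycles for surfaces with finite-dimensional transcendental motives of
small coniveau-one part
-/

open CategoryTheory AlgebraicGeometry

universe u v w

namespace Pool.Agent.Results.MP_83b46e_ag.TranscendentalDeterminants

open Pool.Agent.H914 Pool.Agent.H914.VarClass Pool.Agent.H914.VarClass.Obj Pool.Agent.W492.BB
  Pool.Agent.W550.Corr Pool.Agent.TH133 Pool.Agent.Y152.AS Pool.Agent.Y110 Pool.Agent.Y152.VC
  Pool.Agent.Y152.VR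

/-- Let the transcendental motive of the surface `S` be a sum of finite-dimensional pieces `M_i` of
ranks `b_i`, with algebraic determinants. Then `∑_σ sgn(σ) a_{σ(1)} × ... × a_{σ(n)} = 0` in
`CH_0(S^n)_ℚ` for all `n > ∑_i ⌊b_i / 2⌋` and all `a_1, ..., a_n` in the Albanese kernel of `S`. -/
theorem result {k : Type u} [Field k] {𝒱 : VarClass k} {C : TheoryData.{u, v, 0} 𝒱 ℚ}
    [IsChowProj C] (S : 𝒱.Obj) (hS : S.dim = 2) (r : ℕ) (M : Fin r → FinitePiece C S)
    (hM : IsSumOfPieces C M) (n : ℕ) (hn : ∑ i, (M i).b / 2 < n) (P : 𝒱.Obj)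
    (pr : Fin n → (P ⟶ S)) (_ : IsPow pr) (a : Fin n → C.A S) (ha : ∀ j, InAlbKer C (a j)) :
    altProd C pr a = 0 :=
  main hS M hM hn pr a ha

end Pool.Agent.Results.MP_83b46e_ag.TranscendentalDeterminants
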